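import Mathlib

set_option autoImplicit false

namespace Pool.Agent.TH797.DG

open MonoidAlgebra

/-- `G` has no element of order `ℓ` for the primes `ℓ` outside `P` -/
def NoTorsionOff (P : Set ℕ) (G : Type*) [Group G] : Prop :=
  ∀ ℓ : ℕ, ℓ.Prime → ℓ ∉ P → ∀ g : G, g ^ ℓ = 1 → g = 1

/-- a positive integer all of whose prime factors are in `P` -/
def PNumber (P : Set ℕ) (d : ℕ) : Prop := 0 < d ∧ ∀ ℓ : ℕ, ℓ.Prime → ℓ ∣ d → ℓ ∈ P

/-- the trace of a matrix over `kG`: the sum of the coefficients of `1` of the diagonal entries -/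
noncomputable def tr {k : Type*} [CommRing k] {G : Type*} [Group G] {n : ℕ}
    (e : Matrix (Fin n) (Fin n) (MonoidAlgebra k G)) : k := ∑ i, (e i i).coeff 1

section
variable {k : Type*} [CommRing k] {H G Γ : Type*} [Group H] [Group G] [Group Γ]

lemma coeff_one_mul_map (φ : H × G →* Γ) (hφ : Function.Injective φ) (a : MonoidAlgebra k H)
    (b : MonoidAlgebra k G) :
    (mapDomainRingHom k (φ.comp (MonoidHom.inl H G)) a *
      mapDomainRingHom k (φ.comp (MonoidHom.inr H G)) b).coeff 1 = a.coeff 1 * b.coeff 1 := by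
  induction a using MonoidAlgebra.induction_linear with
  | zero => simp
  | add a a' ih ih' => simp only [map_add, add_mul, coeff_add, Finsupp.add_apply, ih, ih']
  | single m r =>
    induction b using MonoidAlgebra.induction_linear with
    | zero => simp
    | add b b' ih ih' => simp only [map_add, mul_add, coeff_add, Finsupp.add_apply, ih, ih']
    | single m' r' =>
      have e1 : mapDomainRingHom k (φ.comp (MonoidHom.inl H G)) (single m r) =
          single (φ (m, 1)) r := by simp [mapDomainRingHom]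
      have e2 : mapDomainRingHom k (φ.comp (MonoidHom.inr H G)) (single m' r') =
          single (φ (1, m')) r' := by simp [mapDomainRingHom]
      rw [e1, e2, single_mul_single]
      have key : φ (m, 1) * φ (1, m') = φ (m, m') := by rw [← map_mul]; simp
      rw [key]
      classical
      rw [coeff_single, coeff_single, coeff_single, Finsupp.single_apply, Finsupp.single_apply,
        Finsupp.single_apply]
      have h3 : φ (m, m') = 1 ↔ m = 1 ∧ m' = 1 := by
        constructor
        · intro h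
          have : φ (m, m') = φ 1 := by rw [h, map_one]
          have := hφ this
          simpa [Prod.ext_iff] using this
        · rintro ⟨rfl, rfl⟩
          exact map_one φ
      simp only [h3]
      by_cases hm : m = 1 <;> by_cases hm' : m' = 1 <;> simp [hm, hm']

lemma comm_map (φ : H × G →* Γ) (a : MonoidAlgebra k H) (b : MonoidAlgebra k G) :
    mapDomainRingHom k (φ.comp (MonoidHom.inl H G)) a *
      mapDomainRingHom k (φ.comp (MonoidHom.inr H G)) b =
    mapDomainRingHom k (φ.comp (MonoidHom.inr H G)) b *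
      mapDomainRingHom k (φ.comp (MonoidHom.inl H G)) a := by
  induction a using MonoidAlgebra.induction_linear with
  | zero => simp
  | add a a' ih ih' => simp only [map_add, add_mul, mul_add, ih, ih']
  | single m r =>
    induction b using MonoidAlgebra.induction_linear with
    | zero => simp
    | add b b' ih ih' => simp only [map_add, mul_add, add_mul, ih, ih']
    | single m' r' =>
      have e1 : mapDomainRingHom k (φ.comp (MonoidHom.inl H G)) (single m r) =
          single (φ (m, 1)) r := by simp [mapDomainRingHom]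
      have e2 : mapDomainRingHom k (φ.comp (MonoidHom.inr H G)) (single m' r') =
          single (φ (1, m')) r' := by simp [mapDomainRingHom]
      rw [e1, e2, single_mul_single, single_mul_single, ← map_mul, ← map_mul]
      simp [mul_comm]

/-- product of two idempotent matrices -/
lemma step (φ : H × G →* Γ) (hφ : Function.Injective φ) {n m : ℕ}
    (e : Matrix (Fin n) (Fin n) (MonoidAlgebra k H)) (he : e * e = e)
    (f : Matrix (Fin m) (Fin m) (MonoidAlgebra k G)) (hf : f * f = f) :
    ∃ E : Matrix (Fin (n * m)) (Fin (n * m)) (MonoidAlgebra k Γ), E * E = E ∧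
      tr E = tr e * tr f := by
  classical
  set A := mapDomainRingHom k (φ.comp (MonoidHom.inl H G)) with hA
  set B := mapDomainRingHom k (φ.comp (MonoidHom.inr H G)) with hB
  let E0 : Matrix (Fin n × Fin m) (Fin n × Fin m) (MonoidAlgebra k Γ) :=
    fun p q => A (e p.1 q.1) * B (f p.2 q.2)
  have h0 : E0 * E0 = E0 := by
    ext1 p q
    have h1 : (E0 * E0) p q = ∑ r : Fin n × Fin m,
        (A (e p.1 r.1) * A (e r.1 q.1)) * (B (f p.2 r.2) * B (f r.2 q.2)) := by
      rw [Matrix.mul_apply]
      refine Finset.sum_congr rfl fun r _ => ?_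
      show A (e p.1 r.1) * B (f p.2 r.2) * (A (e r.1 q.1) * B (f r.2 q.2)) = _
      rw [mul_assoc, mul_assoc, ← mul_assoc (B (f p.2 r.2)), ← comm_map φ (e r.1 q.1) (f p.2 r.2),
        mul_assoc]
    rw [h1, Fintype.sum_prod_type]
    have h2 : ∀ a : Fin n, ∑ b : Fin m, (A (e p.1 a) * A (e a q.1)) * (B (f p.2 b) * B (f b q.2)) =
        (A (e p.1 a) * A (e a q.1)) * B (f p.2 q.2) := by
      intro a
      rw [← Finset.mul_sum]
      congr 1
      have : (f * f) p.2 q.2 = f p.2 q.2 := by rw [hf]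
      rw [Matrix.mul_apply] at this
      rw [← this, map_sum]
      simp only [map_mul]
    rw [Finset.sum_congr rfl fun a _ => h2 a, ← Finset.sum_mul]
    have : (e * e) p.1 q.1 = e p.1 q.1 := by rw [he]
    rw [Matrix.mul_apply] at this
    show _ = A (e p.1 q.1) * B (f p.2 q.2)
    rw [← this, map_sum]
    simp only [map_mul]
  refine ⟨E0.submatrix finProdFinEquiv.symm finProdFinEquiv.symm, ?_, ?_⟩
  · rw [Matrix.submatrix_mul_equiv, h0]
  · unfold tr
    rw [← Equiv.sum_comp finProdFinEquiv]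
    simp only [Matrix.submatrix_apply, Equiv.symm_apply_apply]
    rw [Fintype.sum_prod_type, Finset.sum_mul_sum]
    refine Finset.sum_congr rfl fun i _ => Finset.sum_congr rfl fun j _ => ?_
    exact coeff_one_mul_map φ hφ _ _

end

/-- `(f, g) ↦ (g, f 0, f 1, ...)` -/
def consHom (G : Type*) [Group G] : (ℕ → G) × G →* (ℕ → G) where
  toFun p := fun i => Nat.casesOn i p.2 p.1
  map_one' := by
    funext i
    cases i <;> rfl
  map_mul' p q := by
    funext i
    cases i <;> rfl

lemma consHom_inj (G : Type*) [Group G] : Function.Injective (consHom G) := by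
  rintro ⟨f, g⟩ ⟨f', g'⟩ h
  have h0 := congrFun h 0
  have h1 : ∀ i, f i = f' i := fun i => congrFun h (i + 1)
  have h0' : g = g' := h0
  rw [h0', funext h1]

lemma powers {k : Type*} [CommRing k] {G : Type*} [Group G] {n : ℕ}
    (e : Matrix (Fin n) (Fin n) (MonoidAlgebra k G)) (he : e * e = e) (m : ℕ) :
    ∃ s : ℕ, s = n ^ m ∧ ∃ E : Matrix (Fin s) (Fin s) (MonoidAlgebra k (ℕ → G)),
      E * E = E ∧ tr E = tr e ^ m := by
  induction m with
  | zero =>
    refine ⟨1, by simp, 1, by simp, ?_⟩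
    simp [tr, MonoidAlgebra.one_def]
  | succ m ih =>
    obtain ⟨s, hs, E, hE, htr⟩ := ih
    obtain ⟨E', hE', htr'⟩ := step (consHom G) (consHom_inj G) E hE e he
    refine ⟨s * n, by rw [hs, pow_succ], E', hE', ?_⟩
    rw [htr', htr, pow_succ]

lemma noTorsion_pi {P : Set ℕ} {G : Type*} [Group G] (h : NoTorsionOff P G) :
    NoTorsionOff P (ℕ → G) := by
  intro ℓ hℓ hP f hf
  funext i
  exact h ℓ hℓ hP (f i) (congrFun hf i)

lemma core {k : Type*} [Field k] [CharZero k] (P : Set ℕ) (x : k) (C : ℝ)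
    (h : ∀ m : ℕ, ∃ (N d : ℕ) (z : ℤ), 0 < N ∧ (N : ℝ) ≤ C * (3 / 2) ^ m ∧ PNumber P d ∧
      ((N : k) * d) * x ^ m = z) :
    ∃ (d : ℕ) (z : ℤ), PNumber P d ∧ (d : k) * x = z := by
  obtain ⟨N, d, z, hN, -, hd, hx⟩ := h 1
  set q : ℚ := (z : ℚ) / ((N : ℚ) * d) with hq
  have hNk : ((N : k) * d) ≠ 0 := by
    have := hd.1
    exact mul_ne_zero (by exact_mod_cast hN.ne') (by exact_mod_cast this.ne')
  have hxq : x = (q : k) := by
    rw [hq]
    push_cast
    rw [eq_div_iff hNk, ← hx]
    ring
  refine ⟨q.den, q.num, ⟨q.den_pos, ?_⟩, ?_⟩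
  swap
  · rw [hxq]
    have := Rat.den_mul_eq_num q
    exact_mod_cast this
  intro ℓ hℓ hdiv
  by_contra hP
  have key : ∀ m : ℕ, (2 : ℝ) ^ m ≤ C * (3 / 2) ^ m := by
    intro m
    obtain ⟨N, d, z, hN, hNC, hd, hx⟩ := h m
    have h1 : ((N : ℚ) * d) * q ^ m = z := by
      have : (((N : ℚ) * d * q ^ m : ℚ) : k) = ((z : ℚ) : k) := by
        push_cast
        rw [← hxq, hx]
      exact_mod_cast this
    have hNd : ((N : ℚ) * d) ≠ 0 :=
      mul_ne_zero (by exact_mod_cast hN.ne') (by exact_mod_cast hd.1.ne')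
    have h2 : q ^ m = ((z : ℤ) : ℚ) / (((N * d : ℕ) : ℤ) : ℚ) := by
      rw [eq_div_iff (by push_cast; exact hNd), ← h1]
      push_cast
      ring
    have h3 : ((q ^ m).den : ℤ) ∣ ((N * d : ℕ) : ℤ) := by
      rw [h2]
      have := Rat.den_dvd z ((N * d : ℕ) : ℤ)
      rwa [Rat.divInt_eq_div] at this
    have h4 : q.den ^ m ∣ N * d := by
      rw [Rat.den_pow] at h3
      exact_mod_cast h3
    have h5 : ℓ ^ m ∣ N * d := (pow_dvd_pow_of_dvd hdiv m).trans h4
    have h6 : Nat.Coprime (ℓ ^ m) d := by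
      apply Nat.Coprime.pow_left
      rw [Nat.Prime.coprime_iff_not_dvd hℓ]
      exact fun hh => hP (hd.2 ℓ hℓ hh)
    have h7 : ℓ ^ m ∣ N := h6.dvd_of_dvd_mul_right h5
    have h8 : ℓ ^ m ≤ N := Nat.le_of_dvd hN h7
    calc (2 : ℝ) ^ m ≤ (ℓ : ℝ) ^ m := by
          apply pow_le_pow_left₀ (by norm_num)
          exact_mod_cast hℓ.two_le
      _ ≤ N := by exact_mod_cast h8
      _ ≤ _ := hNC
  obtain ⟨m, hm⟩ := pow_unbounded_of_one_lt C (show (1 : ℝ) < 4 / 3 by norm_num)
  have h1 := key m
  have h2 : (2 : ℝ) ^ m = (4 / 3) ^ m * (3 / 2) ^ m := by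
    rw [← mul_pow]; norm_num
  rw [h2] at h1
  have h3 : (0 : ℝ) < (3 / 2) ^ m := by positivity
  have := le_of_mul_le_mul_right h1 h3
  linarith

end Pool.Agent.TH797.DG
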