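import Pool.Agent.TH797.DG

set_option autoImplicit false

namespace Pool.Agent.TH797.DG

open MonoidAlgebra

open Classical in
/-- sum of the coefficients of `a` over the conjugates of `x` -/
noncomputable def T {k : Type*} [CommRing k] {G : Type*} [Group G] (x : G) (a : MonoidAlgebra k G) : k :=
  a.coeff.sum fun h b => if IsConj x h then b else 0

section
variable {k : Type*} [CommRing k] {H G Γ : Type*} [Group H] [Group G] [Group Γ]

lemma T_zero (x : G) : T x (0 : MonoidAlgebra k G) = 0 := by
  simp [T]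

lemma T_add (x : G) (a b : MonoidAlgebra k G) : T x (a + b) = T x a + T x b := by
  classical
  unfold T
  rw [coeff_add]
  apply Finsupp.sum_add_index'
  · intro h; simp
  · intro h b c; split_ifs <;> simp

open Classical in
lemma T_single (x h : G) (r : k) : T x (single h r) = if IsConj x h then r else 0 := by
  unfold T
  rw [coeff_single, Finsupp.sum_single_index (by simp)]

lemma isConj_equiv (φ : H × G ≃* Γ) (h h' : H) (g g' : G) :
    IsConj (φ (h, g)) (φ (h', g')) ↔ IsConj h h' ∧ IsConj g g' := by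
  constructor
  · intro hc
    obtain ⟨c, hc⟩ := isConj_iff.1 hc
    have h1 : φ.symm c * (h, g) * (φ.symm c)⁻¹ = (h', g') := by
      apply φ.injective
      rw [map_mul, map_mul, map_inv, φ.apply_symm_apply]
      exact hc
    refine ⟨isConj_iff.2 ⟨(φ.symm c).1, ?_⟩, isConj_iff.2 ⟨(φ.symm c).2, ?_⟩⟩
    · exact congrArg Prod.fst h1
    · exact congrArg Prod.snd h1
  · rintro ⟨h1, h2⟩
    obtain ⟨c, hc⟩ := isConj_iff.1 h1
    obtain ⟨d, hd⟩ := isConj_iff.1 h2
    refine isConj_iff.2 ⟨φ (c, d), ?_⟩
    rw [← map_inv, ← map_mul, ← map_mul]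
    congr 1
    exact Prod.ext hc hd

lemma T_mul_map (φ : H × G ≃* Γ) (h : H) (g : G) (a : MonoidAlgebra k H)
    (b : MonoidAlgebra k G) :
    T (φ (h, g)) (mapDomainRingHom k ((φ : H × G →* Γ).comp (MonoidHom.inl H G)) a *
      mapDomainRingHom k ((φ : H × G →* Γ).comp (MonoidHom.inr H G)) b) = T h a * T g b := by
  classical
  induction a using MonoidAlgebra.induction_linear with
  | zero => simp [T_zero]
  | add a a' ih ih' => simp only [map_add, add_mul, T_add, ih, ih']
  | single m r =>
    induction b using MonoidAlgebra.induction_linear with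
    | zero => simp [T_zero]
    | add b b' ih ih' => simp only [map_add, mul_add, T_add, ih, ih']
    | single m' r' =>
      have e1 : mapDomainRingHom k ((φ : H × G →* Γ).comp (MonoidHom.inl H G)) (single m r) =
          single (φ (m, 1)) r := by simp [mapDomainRingHom]
      have e2 : mapDomainRingHom k ((φ : H × G →* Γ).comp (MonoidHom.inr H G)) (single m' r') =
          single (φ (1, m')) r' := by simp [mapDomainRingHom]
      rw [e1, e2, single_mul_single]
      have key : φ (m, 1) * φ (1, m') = φ (m, m') := by rw [← map_mul]; simp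
      rw [key, T_single, T_single, T_single]
      simp only [isConj_equiv]
      by_cases h1 : IsConj h m
      · by_cases h2 : IsConj g m'
        · rw [if_pos ⟨h1, h2⟩, if_pos h1, if_pos h2]
        · rw [if_neg (fun h => h2 h.2), if_neg h2, mul_zero]
      · rw [if_neg (fun h => h1 h.1), if_neg h1, zero_mul]

/-- the value of the Hattori-Stallings rank at the class of `g` -/
noncomputable def hs {n : ℕ} (e : Matrix (Fin n) (Fin n) (MonoidAlgebra k G)) (g : G) : k :=
  ∑ i, T g (e i i)

lemma step2 (φ : H × G ≃* Γ) {n m : ℕ}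
    (e : Matrix (Fin n) (Fin n) (MonoidAlgebra k H)) (he : e * e = e)
    (f : Matrix (Fin m) (Fin m) (MonoidAlgebra k G)) (hf : f * f = f) :
    ∃ E : Matrix (Fin (n * m)) (Fin (n * m)) (MonoidAlgebra k Γ), E * E = E ∧
      ∀ h g, hs E (φ (h, g)) = hs e h * hs f g := by
  classical
  set A := mapDomainRingHom k ((φ : H × G →* Γ).comp (MonoidHom.inl H G)) with hA
  set B := mapDomainRingHom k ((φ : H × G →* Γ).comp (MonoidHom.inr H G)) with hB
  let E0 : Matrix (Fin n × Fin m) (Fin n × Fin m) (MonoidAlgebra k Γ) :=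
    fun p q => A (e p.1 q.1) * B (f p.2 q.2)
  have h0 : E0 * E0 = E0 := by
    ext1 p q
    have h1 : (E0 * E0) p q = ∑ r : Fin n × Fin m,
        (A (e p.1 r.1) * A (e r.1 q.1)) * (B (f p.2 r.2) * B (f r.2 q.2)) := by
      rw [Matrix.mul_apply]
      refine Finset.sum_congr rfl fun r _ => ?_
      show A (e p.1 r.1) * B (f p.2 r.2) * (A (e r.1 q.1) * B (f r.2 q.2)) = _
      rw [mul_assoc, mul_assoc, ← mul_assoc (B (f p.2 r.2)),
        ← comm_map (φ : H × G →* Γ) (e r.1 q.1) (f p.2 r.2), mul_assoc]
    rw [h1, Fintype.sum_prod_type]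
    have h2 : ∀ a : Fin n, ∑ b : Fin m, (A (e p.1 a) * A (e a q.1)) * (B (f p.2 b) * B (f b q.2)) =
        (A (e p.1 a) * A (e a q.1)) * B (f p.2 q.2) := by
      intro a
      rw [← Finset.mul_sum]
      congr 1
      have : (f * f) p.2 q.2 = f p.2 q.2 := by rw [hf]
      rw [Matrix.mul_apply] at this
      rw [← this, map_sum]
      simp only [map_mul]
    rw [Finset.sum_congr rfl fun a _ => h2 a, ← Finset.sum_mul]
    have : (e * e) p.1 q.1 = e p.1 q.1 := by rw [he]
    rw [Matrix.mul_apply] at this
    show _ = A (e p.1 q.1) * B (f p.2 q.2)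
    rw [← this, map_sum]
    simp only [map_mul]
  refine ⟨E0.submatrix finProdFinEquiv.symm finProdFinEquiv.symm, ?_, ?_⟩
  · rw [Matrix.submatrix_mul_equiv, h0]
  · intro h g
    unfold hs
    rw [← Equiv.sum_comp finProdFinEquiv]
    simp only [Matrix.submatrix_apply, Equiv.symm_apply_apply]
    rw [Fintype.sum_prod_type, Finset.sum_mul_sum]
    refine Finset.sum_congr rfl fun i _ => Finset.sum_congr rfl fun j _ => ?_
    exact T_mul_map φ h g _ _

end

/-- `consHom` is an isomorphism -/
def consEquiv (G : Type*) [Group G] : (ℕ → G) × G ≃* (ℕ → G) where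
  toFun p := fun i => Nat.casesOn i p.2 p.1
  invFun f := (fun i => f (i + 1), f 0)
  left_inv p := rfl
  right_inv f := by
    funext i
    cases i <;> rfl
  map_mul' p q := by
    funext i
    cases i <;> rfl

lemma hs_one {k : Type*} [CommRing k] {G : Type*} [Group G] (g : G) (hg : g ≠ 1) :
    hs (1 : Matrix (Fin 1) (Fin 1) (MonoidAlgebra k G)) g = 0 := by
  classical
  unfold hs
  simp only [Fin.isValue, Finset.univ_unique, Fin.default_eq_zero, Finset.sum_singleton,
    Matrix.one_apply_eq, MonoidAlgebra.one_def]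
  rw [T_single, if_neg]
  intro h
  exact hg (isConj_one_right.1 h.symm)

lemma hs_one_one {k : Type*} [CommRing k] {G : Type*} [Group G] :
    hs (1 : Matrix (Fin 1) (Fin 1) (MonoidAlgebra k G)) 1 = 1 := by
  classical
  unfold hs
  simp only [Fin.isValue, Finset.univ_unique, Fin.default_eq_zero, Finset.sum_singleton,
    Matrix.one_apply_eq, MonoidAlgebra.one_def]
  rw [T_single, if_pos (IsConj.refl 1)]

/-- direct sum of two idempotent matrices -/
lemma dsum {k : Type*} [CommRing k] {G : Type*} [Group G] {a b : ℕ}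
    (e : Matrix (Fin a) (Fin a) (MonoidAlgebra k G)) (he : e * e = e)
    (f : Matrix (Fin b) (Fin b) (MonoidAlgebra k G)) (hf : f * f = f) :
    ∃ E : Matrix (Fin (a + b)) (Fin (a + b)) (MonoidAlgebra k G), E * E = E ∧
      ∀ x, hs E x = hs e x + hs f x := by
  classical
  let E0 : Matrix (Fin a ⊕ Fin b) (Fin a ⊕ Fin b) (MonoidAlgebra k G) :=
    Matrix.fromBlocks e 0 0 f
  have hE0 : E0 * E0 = E0 := by
    simp only [E0, Matrix.fromBlocks_multiply, he, hf]
    simp
  refine ⟨E0.submatrix finSumFinEquiv.symm finSumFinEquiv.symm, ?_, ?_⟩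
  · rw [Matrix.submatrix_mul_equiv, hE0]
  · intro x
    unfold hs
    rw [← Equiv.sum_comp finSumFinEquiv]
    simp only [Matrix.submatrix_apply, Equiv.symm_apply_apply]
    rw [Fintype.sum_sum_type]
    simp only [E0, Matrix.fromBlocks_apply₁₁, Matrix.fromBlocks_apply₂₂]

lemma consEquiv_one (G : Type*) [Group G] : consEquiv G (1, 1) = 1 := map_one _

lemma sums2 {k : Type*} [CommRing k] {G : Type*} [Group G] {n : ℕ} (g : G) (hg : g ≠ 1)
    (e : Matrix (Fin n) (Fin n) (MonoidAlgebra k G)) (he : e * e = e)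
    (h2 : hs e g ≠ 0) (j : ℕ) :
    ∃ s : ℕ, s = j * n ∧ ∃ E : Matrix (Fin s) (Fin s) (MonoidAlgebra k (ℕ → G)),
      E * E = E ∧ ∃ S : Finset (ℕ → G), S.card = j ∧
        ∀ x ∈ S, x ≠ 1 ∧ (∀ i, x i = 1 ∨ x i = g) ∧ hs E x ≠ 0 := by
  classical
  induction j with
  | zero =>
    refine ⟨0, by simp, 0, by simp, ∅, by simp, ?_⟩
    intro x hx
    simp at hx
  | succ j ih =>
    obtain ⟨s, hs', E, hE, S, hS, hS'⟩ := ih
    obtain ⟨E1, hE1, hv1⟩ := step2 (consEquiv G) E hE
      (1 : Matrix (Fin 1) (Fin 1) (MonoidAlgebra k G)) (one_mul _)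
    obtain ⟨E2, hE2, hv2⟩ := step2 (consEquiv G)
      (1 : Matrix (Fin 1) (Fin 1) (MonoidAlgebra k (ℕ → G))) (one_mul _) e he
    obtain ⟨E3, hE3, hv3⟩ := dsum E1 hE1 E2 hE2
    have hnot : consEquiv G (1, g) ∉ (S ×ˢ {1}).map (consEquiv G).toEquiv.toEmbedding := by
      intro hmem
      rw [Finset.mem_map] at hmem
      obtain ⟨⟨y, z⟩, hyz, hyz'⟩ := hmem
      have h5 : (y, z) = ((1 : ℕ → G), g) := (consEquiv G).injective hyz'
      rw [Finset.mem_product, Finset.mem_singleton] at hyz
      rw [Prod.ext_iff] at h5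
      exact hg (h5.2.symm.trans hyz.2)
    refine ⟨s * 1 + 1 * n, by rw [hs']; ring, E3, hE3,
      insert (consEquiv G (1, g)) ((S ×ˢ {1}).map (consEquiv G).toEquiv.toEmbedding), ?_, ?_⟩
    · rw [Finset.card_insert_of_notMem hnot, Finset.card_map, Finset.card_product, hS,
        Finset.card_singleton, mul_one]
    · intro x hx
      rw [Finset.mem_insert] at hx
      rcases hx with rfl | hx
      · refine ⟨?_, ?_, ?_⟩
        · intro h
          rw [← consEquiv_one G] at h
          have := (consEquiv G).injective h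
          rw [Prod.ext_iff] at this
          exact hg this.2
        · intro i
          cases i with
          | zero => exact Or.inr rfl
          | succ i => exact Or.inl rfl
        · rw [hv3, hv1, hv2, hs_one g hg, hs_one_one, mul_zero, zero_add, one_mul]
          exact h2
      · rw [Finset.mem_map] at hx
        obtain ⟨⟨y, z⟩, hyz, rfl⟩ := hx
        rw [Finset.mem_product, Finset.mem_singleton] at hyz
        obtain ⟨hy, hz⟩ := hyz
        simp only at hz hy
        subst hz
        obtain ⟨hy0, hy1, hy2⟩ := hS' y hy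
        refine ⟨?_, ?_, ?_⟩
        · intro h
          have h' : consEquiv G (y, 1) = consEquiv G (1, 1) := by
            rw [consEquiv_one G]
            exact h
          have := (consEquiv G).injective h'
          rw [Prod.ext_iff] at this
          exact hy0 this.1
        · intro i
          cases i with
          | zero => exact Or.inl rfl
          | succ i => exact hy1 i
        · show hs E3 (consEquiv G (y, 1)) ≠ 0
          rw [hv3, hv1, hv2, hs_one_one, hs_one y hy0, zero_mul, add_zero, mul_one]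
          exact hy2

lemma isConj_pi {G : Type*} [Group G] {x y : ℕ → G} (h : IsConj x y) (i : ℕ) :
    IsConj (x i) (y i) := by
  obtain ⟨c, hc⟩ := isConj_iff.1 h
  exact isConj_iff.2 ⟨c i, congrFun hc i⟩

end Pool.Agent.TH797.DG
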